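import Pool.Agent.Helper60.MainC

/-! # The minimum condition on subvarieties for the identity `x ^ 3 = x ^ n` -/

universe u

namespace Pool.Agent.Results.MP_f5ed0a_al.MinimumCondition

/-- Expressions in the language of associative rings (no unit) in the variables `x_0, x_1, ...`. -/
inductive RTerm : Type
  | var (i : ℕ) : RTerm
  | zero : RTerm
  | neg (s : RTerm) : RTerm
  | add (s t : RTerm) : RTerm
  | mul (s t : RTerm) : RTerm

/-- The value of an expression in a ring when `x_i` is given the value `v i`. -/
def RTerm.val {R : Type u} [NonUnitalRing R] (v : ℕ → R) : RTerm → R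
  | .var i => v i
  | .zero => 0
  | .neg s => - s.val v
  | .add s t => s.val v + t.val v
  | .mul s t => s.val v * t.val v

/-- The ring `R` satisfies the identity `e.1 = e.2`. -/
def Satisfies (R : Type u) [NonUnitalRing R] (e : RTerm × RTerm) : Prop :=
  ∀ v : ℕ → R, e.1.val v = e.2.val v

/-- A variety of rings: a class of associative rings (not necessarily commutative, not necessarily
with unit) consisting of all rings that satisfy some set of identities. -/
structure RingVariety : Type (u + 1) where
  mem : (R : Type u) → [NonUnitalRing R] → Prop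
  equational : ∃ E : Set (RTerm × RTerm), ∀ (R : Type u) [NonUnitalRing R],
    mem R ↔ ∀ e ∈ E, Satisfies R e

/-- `V` is contained in `W`. -/
def Sub (V W : RingVariety.{u}) : Prop :=
  ∀ (R : Type u) [NonUnitalRing R], V.mem R → W.mem R

/-- `power x k` is `x ^ k` for `k ≥ 1` (the value at `k = 0` plays no role). -/
def power {R : Type u} [NonUnitalRing R] (x : R) : ℕ → R
  | 0 => 0
  | 1 => x
  | k + 2 => power x (k + 1) * x

/-- the expression `x_0 ^ k`, for `k ≥ 1` -/
def termPower : ℕ → RTerm
  | 0 => .zero
  | 1 => .var 0
  | k + 2 => .mul (termPower (k + 1)) (.var 0)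

theorem val_termPower {R : Type u} [NonUnitalRing R] (v : ℕ → R) (k : ℕ) :
    (termPower k).val v = power (v 0) k := by
  induction k using Nat.strong_induction_on with
  | _ k ih =>
    match k, ih with
    | 0, _ => rfl
    | 1, _ => rfl
    | k + 2, ih =>
      have := ih (k + 1) (by omega)
      simp only [termPower, RTerm.val, power, this]

/-- The variety `M n` of all rings with `x ^ 3 = x ^ n`. -/
def M (n : ℕ) : RingVariety.{u} where
  mem := fun R _ => ∀ x : R, power x 3 = power x n
  equational := by
    refine ⟨{(termPower 3, termPower n)}, fun R _ => ?_⟩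
    constructor
    · intro h e he v
      rw [Set.mem_singleton_iff] at he
      subst he
      simp only [val_termPower]
      exact h (v 0)
    · intro h x
      have := h _ (Set.mem_singleton _) (fun _ => x)
      simpa only [val_termPower] using this

/-- The variety `W` satisfies the minimum condition on subvarieties: there is no infinite strictly
descending chain of subvarieties of `W`. -/
def MinimumCondition (W : RingVariety.{u}) : Prop :=
  ¬ ∃ V : ℕ → RingVariety.{u}, Sub (V 0) W ∧ ∀ k, Sub (V (k + 1)) (V k) ∧ ¬ Sub (V k) (V (k + 1))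

open Pool.Agent.Helper60

theorem power_succ {R : Type u} [NonUnitalRing R] (x : R) (k : ℕ) : power x (k + 1) = pw x k := by
  induction k with
  | zero => rfl
  | succ k ih => rw [power, ih, pw]

theorem ev_val {R : Type u} [NonUnitalRing R] (v : ℕ → R) (s : RTerm) : ev v (s.val Xv) = s.val v := by
  induction s with
  | var i => exact ev_X v i
  | zero => exact map_zero _
  | neg s ih => simp only [RTerm.val, map_neg, ih]
  | add s t h1 h2 => simp only [RTerm.val, map_add, h1, h2]
  | mul s t h1 h2 => simp only [RTerm.val, map_mul, h1, h2]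

/-- the identities of a variety, as an ideal of the free ring -/
noncomputable def idl (V : RingVariety.{u}) : TwoSidedIdeal FR :=
  TwoSidedIdeal.mk' {f | ∀ (R : Type u) [NonUnitalRing R], V.mem R → ∀ v : ℕ → R, ev v f = 0}
    (by intro R _ _ v; exact map_zero _)
    (by intro x y hx hy R _ hR v; rw [map_add, hx R hR v, hy R hR v, add_zero])
    (by intro x hx R _ hR v; rw [map_neg, hx R hR v, neg_zero])
    (by intro x y hy R _ hR v; rw [map_mul, hy R hR v, mul_zero])
    (by intro x y hx R _ hR v; rw [map_mul, hx R hR v, zero_mul])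

theorem mem_idl {V : RingVariety.{u}} {f : FR} :
    f ∈ idl V ↔ ∀ (R : Type u) [NonUnitalRing R], V.mem R → ∀ v : ℕ → R, ev v f = 0 := by
  simp [idl]

/-- Every strictly descending chain of subvarieties of the variety of rings with `x ^ 3 = x ^ n`
is finite, for every `n ≥ 4`. -/
theorem result : ∀ n : ℕ, 4 ≤ n → MinimumCondition (M.{u} n) := by
  rintro n hn ⟨V, hV0, hV⟩
  obtain ⟨m, hm, rfl⟩ : ∃ m, 1 ≤ m ∧ n = 2 + m + 1 := ⟨n - 3, by omega, by omega⟩
  have hmono : Monotone (fun k => idl (V k)) := by
    refine monotone_nat_of_le_succ (fun k f hf => ?_)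
    rw [mem_idl] at hf ⊢
    intro R _ hR v
    exact hf R ((hV k).1 R hR) v
  have hT : ∀ k, IsT (idl (V k)) := by
    intro k w f hf
    rw [mem_idl] at hf ⊢
    intro R _ hR v
    rw [map_ev]
    exact hf R hR _
  have hper : ∀ f, pw f 2 - pw f (2 + m) ∈ idl (V 0) := by
    intro f
    rw [mem_idl]
    intro R _ hR v
    have h1 := hV0 R hR (ev v f)
    rw [map_sub, pw_map, pw_map, ← power_succ, ← power_succ, sub_eq_zero]
    exact h1
  obtain ⟨K, hK⟩ := main_chain m hm (fun k => idl (V k)) hmono hT hper
  apply (hV K).2
  intro R _ hR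
  obtain ⟨E, hE⟩ := (V (K + 1)).equational
  rw [hE R]
  intro e he v
  have h1 : e.1.val Xv - e.2.val Xv ∈ idl (V (K + 1)) := by
    rw [mem_idl]
    intro S _ hS w
    rw [map_sub, ev_val, ev_val, (hE S).mp hS e he w, sub_self]
  have h2 : idl (V (K + 1)) = idl (V K) := hK (K + 1) (Nat.le_succ K)
  rw [h2, mem_idl] at h1
  have h3 := h1 R hR v
  rw [map_sub, ev_val, ev_val, sub_eq_zero] at h3
  exact h3

end Pool.Agent.Results.MP_f5ed0a_al.MinimumCondition
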